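import Mathlib
import Pool.Agent.MP_dabcc5_co.Defs

-- part MP_dabcc5_co.Rep
section

/-!
Represented matroids: construction, closure, rank, minors, and the critical theorem of
Crapo and Rota.
-/

set_option autoImplicit false

open Matroid Submodule Module

namespace Pool.Agent.MP_dabcc5_co

variable {α : Type} {F : Type} [Field F] {V : Type} [AddCommGroup V] [Module F V]

/-- `v` represents `M`. -/
def Rep (F : Type) [Field F] {V : Type} [AddCommGroup V] [Module F V] (M : Matroid α)
    (v : α → V) : Prop :=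
  ∀ I ⊆ M.E, (M.Indep I ↔ LinearIndepOn F v I)

lemma finrank_span_indep [Finite α] {v : α → V} {I : Set α} (hI : LinearIndepOn F v I) :
    finrank F (span F (v '' I)) = I.ncard := by
  classical
  haveI : Fintype I := Fintype.ofFinite I
  have h := finrank_span_eq_card (R := F) (b := fun x : I => v x) hI
  rw [Set.image_eq_range, h, ← Nat.card_eq_fintype_card, Nat.card_coe_set_eq]

/-- The vector matroid of a family of vectors. -/
noncomputable def vecMatroid [Finite α] (F : Type) [Field F] {V : Type} [AddCommGroup V]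
    [Module F V] (E : Set α) (v : α → V) : Matroid α :=
  (IndepMatroid.ofFinite (Set.toFinite E) (fun I => I ⊆ E ∧ LinearIndepOn F v I)
    ⟨Set.empty_subset _, linearIndepOn_empty F v⟩
    (fun _ _ hJ hIJ => ⟨hIJ.trans hJ.1, hJ.2.mono hIJ⟩)
    (by
      intro I J hI hJ hlt
      by_contra hcon
      push Not at hcon
      have hle : span F (v '' J) ≤ span F (v '' I) := by
        rw [span_le]
        rintro _ ⟨e, he, rfl⟩
        by_cases heI : e ∈ I
        · exact subset_span ⟨e, heI, rfl⟩
        · by_contra hns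
          exact hcon e he heI (Set.insert_subset (hJ.1 he) hI.1)
            ((linearIndepOn_insert heI).2 ⟨hI.2, hns⟩)
      haveI : FiniteDimensional F (span F (v '' I)) :=
        FiniteDimensional.span_of_finite F ((Set.toFinite I).image v)
      have h2 := Submodule.finrank_mono hle
      rw [finrank_span_indep hI.2, finrank_span_indep hJ.2] at h2
      omega)
    (fun _ hI => hI.1)).matroid

lemma vecMatroid_E [Finite α] (E : Set α) (v : α → V) : (vecMatroid F E v).E = E := rfl

lemma vecMatroid_indep [Finite α] (E : Set α) (v : α → V) (I : Set α) :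
    (vecMatroid F E v).Indep I ↔ I ⊆ E ∧ LinearIndepOn F v I := Iff.rfl

lemma vecMatroid_rep [Finite α] (E : Set α) (v : α → V) : Rep F (vecMatroid F E v) v := by
  intro I hI
  rw [vecMatroid_indep]
  exact ⟨fun h => h.2, fun h => ⟨hI, h⟩⟩

variable {M : Matroid α} {v : α → V}

lemma Rep.mem_closure_indep (h : Rep F M v) {I : Set α} (hI : M.Indep I) {e : α} (he : e ∈ M.E) :
    e ∈ M.closure I ↔ v e ∈ span F (v '' I) := by
  rw [hI.mem_closure_iff', h _ (Set.insert_subset he hI.subset_ground), linearIndepOn_insert_iff]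
  have hI' := (h I hI.subset_ground).1 hI
  constructor
  · rintro ⟨-, h2⟩
    by_contra hns
    exact hns (subset_span ⟨e, h2 ⟨hI', fun h3 => absurd h3 hns⟩, rfl⟩)
  · intro h2
    exact ⟨he, fun h3 => h3.2 h2⟩

lemma Rep.span_isBasis (h : Rep F M v) {I X : Set α} (hI : M.IsBasis I X) :
    span F (v '' I) = span F (v '' X) := by
  apply le_antisymm (span_mono (Set.image_mono hI.subset))
  rw [span_le]
  rintro _ ⟨e, he, rfl⟩
  exact (h.mem_closure_indep hI.indep (hI.subset_ground he)).1 (hI.subset_closure he)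

lemma Rep.mem_closure (h : Rep F M v) {X : Set α} (hX : X ⊆ M.E) {e : α} (he : e ∈ M.E) :
    e ∈ M.closure X ↔ v e ∈ span F (v '' X) := by
  obtain ⟨I, hI⟩ := M.exists_isBasis X hX
  rw [← hI.closure_eq_closure, ← h.span_isBasis hI, h.mem_closure_indep hI.indep he]

lemma rep_of_closure
    (h : ∀ X ⊆ M.E, ∀ e ∈ M.E, (e ∈ M.closure X ↔ v e ∈ span F (v '' X))) : Rep F M v := by
  intro I hI
  rw [indep_iff_forall_notMem_closure_sdiff hI, linearIndepOn_iff_notMem_span]
  refine forall_congr' fun e => forall_congr' fun he => ?_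
  rw [h _ (Set.sdiff_subset.trans hI) e (hI he)]

lemma Rep.rk_eq [Finite α] (h : Rep F M v) {X : Set α} (hX : X ⊆ M.E) :
    rk M X = finrank F (span F (v '' X)) := by
  obtain ⟨I, hI⟩ := M.exists_isBasis X hX
  rw [← h.span_isBasis hI, finrank_span_indep ((h I hI.indep.subset_ground).1 hI.indep), rk,
    hI.eRk_eq_encard, Set.ncard_def]

lemma Rep.delete (h : Rep F M v) (D : Set α) : Rep F (M ＼ D) v := by
  intro I hI
  rw [delete_ground] at hI
  rw [delete_indep_iff, h I (hI.trans Set.sdiff_subset)]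
  exact ⟨fun h2 => h2.1, fun h2 => ⟨h2, Set.disjoint_left.2 fun e he => (hI he).2⟩⟩

lemma Rep.contract (h : Rep F M v) {C : Set α} (hC : C ⊆ M.E) :
    Rep F (M ／ C) (fun e => (span F (v '' C)).mkQ (v e)) := by
  apply rep_of_closure
  intro X hX e he
  rw [contract_ground] at hX he
  rw [contract_closure_eq, Set.mem_sdiff, and_iff_left he.2,
    h.mem_closure (Set.union_subset (hX.trans Set.sdiff_subset) hC) he.1]
  have h1 : (fun e => (span F (v '' C)).mkQ (v e)) '' X = (span F (v '' C)).mkQ '' (v '' X) := by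
    rw [Set.image_image]
  rw [h1, ← Submodule.map_span, ← Submodule.mem_comap, Submodule.comap_map_mkQ, Set.image_union,
    span_union, sup_comm]

section Counting

variable [Fintype F] [FiniteDimensional F V]

lemma card_vanishing (c : ℕ) (S : Set V) :
    Nat.card {f : V →ₗ[F] (Fin c → F) // ∀ x ∈ S, f x = 0}
      = (Fintype.card F ^ c) ^ (finrank F V - finrank F (span F S)) := by
  have e : {f : V →ₗ[F] (Fin c → F) // ∀ x ∈ S, f x = 0} ≃ ((V ⧸ span F S) →ₗ[F] (Fin c → F)) :=
    { toFun := fun f => (span F S).liftQ f.1 (by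
        rw [span_le]
        intro x hx
        exact f.2 x hx)
      invFun := fun g => ⟨g.comp (span F S).mkQ, fun x hx => by
        have : (span F S).mkQ x = 0 := by
          rw [Submodule.mkQ_apply, Submodule.Quotient.mk_eq_zero]
          exact subset_span hx
        rw [LinearMap.comp_apply, this, map_zero]⟩
      left_inv := fun f => Subtype.ext (Submodule.liftQ_mkQ _ _ _)
      right_inv := fun g => by
        apply Submodule.linearMap_qext
        exact Submodule.liftQ_mkQ _ _ _ }
  rw [Nat.card_congr e, Module.natCard_eq_pow_finrank (K := F), Module.finrank_linearMap,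
    Module.finrank_fin_fun, Nat.card_eq_fintype_card, ← pow_mul, mul_comm c]
  congr 2
  have := (span F S).finrank_quotient_add_finrank
  omega

/-- The critical theorem. -/
theorem Rep.charPoly_eval [Finite α] (h : Rep F M v) (c : ℕ) :
    (charPoly M).eval ((Fintype.card F : ℤ) ^ c)
        * ((Fintype.card F : ℤ) ^ c) ^ (finrank F V - rk M M.E)
      = Nat.card {f : V →ₗ[F] (Fin c → F) // ∀ e ∈ M.E, f (v e) ≠ 0} := by
  classical
  haveI : Finite (V →ₗ[F] (Fin c → F)) := Module.finite_of_finite F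
  haveI : Fintype (V →ₗ[F] (Fin c → F)) := Fintype.ofFinite _
  set E := (Set.toFinite M.E).toFinset with hE
  have hmemE : ∀ e, e ∈ E ↔ e ∈ M.E := fun e => by simp [hE]
  have hterm : ∀ S ∈ E.powerset,
      ((Fintype.card F : ℤ) ^ c) ^ (rk M M.E - rk M (S : Set α))
        * ((Fintype.card F : ℤ) ^ c) ^ (finrank F V - rk M M.E)
      = ∑ f : V →ₗ[F] (Fin c → F), if S ⊆ E.filter (fun e => f (v e) = 0) then 1 else 0 := by
    intro S hS
    have hSE : (S : Set α) ⊆ M.E := fun e he => (hmemE e).1 (Finset.mem_powerset.1 hS he)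
    have h1 : rk M (S : Set α) ≤ rk M M.E := by
      rw [h.rk_eq hSE, h.rk_eq subset_rfl]
      exact Submodule.finrank_mono (span_mono (Set.image_mono hSE))
    have h2 : rk M M.E ≤ finrank F V := by
      rw [h.rk_eq subset_rfl]
      exact Submodule.finrank_le _
    rw [← pow_add, show rk M M.E - rk M (S : Set α) + (finrank F V - rk M M.E)
      = finrank F V - rk M (S : Set α) by omega, h.rk_eq hSE]
    have h3 := card_vanishing (F := F) c (v '' (S : Set α))
    rw [Nat.card_eq_fintype_card, Fintype.card_subtype] at h3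
    rw [Finset.sum_boole]
    have h4 : (Finset.univ.filter fun f : V →ₗ[F] (Fin c → F) =>
        S ⊆ E.filter (fun e => f (v e) = 0))
        = Finset.univ.filter fun f : V →ₗ[F] (Fin c → F) => ∀ x ∈ v '' (S : Set α), f x = 0 := by
      apply Finset.filter_congr
      intro f _
      constructor
      · rintro hf _ ⟨e, he, rfl⟩
        exact (Finset.mem_filter.1 (hf he)).2
      · intro hf e he
        exact Finset.mem_filter.2 ⟨Finset.mem_powerset.1 hS he, hf _ ⟨e, he, rfl⟩⟩
    rw [h4, h3]
    push_cast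
    rfl
  rw [charPoly, Polynomial.eval_finset_sum, Finset.sum_mul]
  simp only [Polynomial.eval_mul, Polynomial.eval_pow, Polynomial.eval_neg, Polynomial.eval_one,
    Polynomial.eval_X, mul_assoc]
  rw [← hE, Finset.sum_congr rfl (fun S hS => by rw [hterm S hS])]
  simp only [Finset.mul_sum]
  rw [Finset.sum_comm]
  have hinner : ∀ f : V →ₗ[F] (Fin c → F),
      (∑ S ∈ E.powerset, (-1 : ℤ) ^ S.card * if S ⊆ E.filter (fun e => f (v e) = 0) then 1 else 0)
        = if ∀ e ∈ M.E, f (v e) ≠ 0 then 1 else 0 := by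
    intro f
    have h5 : (E.filter (fun e => f (v e) = 0)).powerset
        = E.powerset.filter (fun S => S ⊆ E.filter (fun e => f (v e) = 0)) := by
      ext S
      simp only [Finset.mem_powerset, Finset.mem_filter]
      exact ⟨fun hS => ⟨hS.trans (Finset.filter_subset _ _), hS⟩, fun hS => hS.2⟩
    simp only [mul_ite, mul_one, mul_zero]
    rw [← Finset.sum_filter, ← h5, Finset.sum_powerset_neg_one_pow_card]
    congr 1
    rw [Finset.filter_eq_empty_iff]
    simp only [hmemE]
  rw [Finset.sum_congr rfl (fun f _ => hinner f), Finset.sum_boole, Nat.card_eq_fintype_card,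
    Fintype.card_subtype]

theorem Rep.charPoly_pos_iff [Finite α] (h : Rep F M v) (c : ℕ) :
    0 < (charPoly M).eval ((Fintype.card F : ℤ) ^ c) ↔
      ∃ f : V →ₗ[F] (Fin c → F), ∀ e ∈ M.E, f (v e) ≠ 0 := by
  haveI : Finite (V →ₗ[F] (Fin c → F)) := Module.finite_of_finite F
  have h1 := h.charPoly_eval c
  have hq : (0 : ℤ) < ((Fintype.card F : ℤ) ^ c) ^ (finrank F V - rk M M.E) := by
    have : (0 : ℤ) < (Fintype.card F : ℤ) := by exact_mod_cast Fintype.card_pos
    positivity
  rw [← mul_pos_iff_of_pos_right hq, h1, Nat.cast_pos, Nat.card_pos_iff]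
  constructor
  · rintro ⟨⟨f, hf⟩, -⟩
    exact ⟨f, hf⟩
  · rintro ⟨f, hf⟩
    exact ⟨⟨⟨f, hf⟩⟩, inferInstance⟩

end Counting

end Pool.Agent.MP_dabcc5_co

end

-- part MP_dabcc5_co.Cycle
section

/-!
The cycle matroid of a complete graph as a vector matroid.
-/

set_option autoImplicit false

open Matroid Submodule Module

namespace Pool.Agent.MP_dabcc5_co

variable {n : ℕ} (F : Type) [Field F]

/-- The signed incidence vector of an edge. -/
def edgeVec (e : Sym2 (Fin n)) : Fin n → F := Pi.single e.inf 1 - Pi.single e.sup 1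

variable {F}

lemma edgeVec_mk (a b : Fin n) :
    edgeVec F s(a, b) = Pi.single a 1 - Pi.single b 1 ∨
      edgeVec F s(a, b) = -(Pi.single a 1 - Pi.single b 1) := by
  rcases le_total a b with h | h
  · left; simp [edgeVec, inf_eq_left.2 h, sup_eq_right.2 h]
  · right; simp [edgeVec, inf_eq_right.2 h, sup_eq_left.2 h]

lemma edgeVec_mem_iff (a b : Fin n) (W : Submodule F (Fin n → F)) :
    edgeVec F s(a, b) ∈ W ↔ (Pi.single a 1 - Pi.single b 1 : Fin n → F) ∈ W := by
  rcases edgeVec_mk (F := F) a b with h | h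
  · rw [h]
  · rw [h, neg_mem_iff]

lemma mem_span_iff_reachable (J : Set (Sym2 (Fin n))) (a b : Fin n) :
    (Pi.single a 1 - Pi.single b 1 : Fin n → F) ∈ span F (edgeVec F '' J) ↔
      (SimpleGraph.fromEdgeSet J).Reachable a b := by
  classical
  constructor
  · intro h
    let φ : (Fin n → F) →ₗ[F] F :=
      ∑ u ∈ Finset.univ.filter (fun u => (SimpleGraph.fromEdgeSet J).Reachable a u),
        LinearMap.proj u
    have hφ : ∀ u, φ (Pi.single u 1) =
        if (SimpleGraph.fromEdgeSet J).Reachable a u then 1 else 0 := by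
      intro u
      simp only [φ, LinearMap.sum_apply, LinearMap.proj_apply, Pi.single_apply]
      rw [Finset.sum_ite_eq']
      simp
    have hker : span F (edgeVec F '' J) ≤ LinearMap.ker φ := by
      rw [span_le]
      rintro _ ⟨e, he, rfl⟩
      induction e using Sym2.ind with
      | _ u w =>
        rw [SetLike.mem_coe, edgeVec_mem_iff, LinearMap.mem_ker, map_sub, hφ, hφ]
        by_cases huw : u = w
        · rw [huw, sub_self]
        · have hadj : (SimpleGraph.fromEdgeSet J).Adj u w := by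
            rw [SimpleGraph.fromEdgeSet_adj]; exact ⟨he, huw⟩
          have hiff : (SimpleGraph.fromEdgeSet J).Reachable a u ↔
              (SimpleGraph.fromEdgeSet J).Reachable a w :=
            ⟨fun h1 => h1.trans hadj.reachable, fun h1 => h1.trans hadj.symm.reachable⟩
          simp only [hiff, sub_self]
    have h2 := hker h
    rw [LinearMap.mem_ker, map_sub, hφ, hφ, if_pos (SimpleGraph.Reachable.refl a)] at h2
    by_contra hb
    rw [if_neg hb, sub_zero] at h2
    exact one_ne_zero h2
  · rintro ⟨p⟩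
    induction p with
    | nil => simp
    | @cons u w x hadj p ih =>
      rw [SimpleGraph.fromEdgeSet_adj] at hadj
      have h1 : (Pi.single u 1 - Pi.single w 1 : Fin n → F) ∈ span F (edgeVec F '' J) := by
        rw [← edgeVec_mem_iff]
        exact subset_span ⟨_, hadj.1, rfl⟩
      have h2 := add_mem h1 ih
      rwa [sub_add_sub_cancel] at h2

lemma isCycleMatroid_vec :
    IsCycleMatroid (⊤ : SimpleGraph (Fin n))
      (vecMatroid F (⊤ : SimpleGraph (Fin n)).edgeSet (edgeVec F)) := by
  refine ⟨rfl, fun I hI => ?_⟩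
  rw [vecMatroid_indep, and_iff_right hI, linearIndepOn_iff_notMem_span,
    SimpleGraph.isAcyclic_iff_forall_isBridge]
  have hE : (SimpleGraph.fromEdgeSet I).edgeSet = I := by
    rw [SimpleGraph.edgeSet_fromEdgeSet]
    ext e
    constructor
    · exact fun h => h.1
    · intro he
      refine ⟨he, ?_⟩
      have := hI he
      simpa using this
  rw [hE]
  refine forall_congr' fun e => forall_congr' fun he => ?_
  induction e using Sym2.ind with
  | _ u w =>
    rw [SimpleGraph.isBridge_iff, edgeVec_mem_iff, mem_span_iff_reachable,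
      SimpleGraph.deleteEdges_fromEdgeSet]

/-- A linear image of a vector matroid is a quotient. -/
lemma isQuotient_vec {α V W : Type} [Finite α] [AddCommGroup V] [Module F V] [AddCommGroup W]
    [Module F W] (E : Set α) (v : α → V) (π : V →ₗ[F] W) :
    IsQuotient (vecMatroid F E (fun e => π (v e))) (vecMatroid F E v) := by
  refine ⟨rfl, fun X hX => ?_⟩
  have hXE : X ⊆ E := hX.subset_ground
  rw [isFlat_iff_closure_eq]
  refine subset_antisymm (fun e he => ?_) (subset_closure _ X hXE)
  have heE : e ∈ E := mem_ground_of_mem_closure he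
  rw [(vecMatroid_rep E v).mem_closure hXE heE] at he
  rw [← hX.closure, (vecMatroid_rep E _).mem_closure hXE heE, ← Set.image_image,
    ← Submodule.map_span]
  exact Submodule.mem_map_of_mem he

end Pool.Agent.MP_dabcc5_co

end

-- part MP_dabcc5_co.Example
section

/-!
The counterexample over the field with five elements: the ten directions determined by the six
vertices of a triangular prism in the affine 3-space over `ZMod 5`.
-/

set_option autoImplicit false

open Matroid Submodule Module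

namespace Pool.Agent.MP_dabcc5_co

instance fact_five : Fact (Nat.Prime 5) := ⟨by norm_num⟩

/-- The six vertices of the prism. -/
def pt : Fin 6 → Fin 3 → ZMod 5 :=
  ![![0, 0, 0], ![1, 0, 0], ![0, 1, 0], ![0, 0, 1], ![1, 0, 1], ![0, 1, 1]]

/-- The ten directions. -/
def vt : Fin 10 → Fin 3 → ZMod 5 :=
  ![![4, 0, 0], ![0, 4, 0], ![1, 4, 0], ![0, 0, 4], ![4, 0, 4], ![0, 4, 4], ![1, 0, 4],
    ![1, 4, 4], ![0, 1, 4], ![4, 1, 4]]

/-- An edge of the complete graph for each direction. -/
def edgeOf : Fin 10 → Sym2 (Fin 6) :=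
  ![s(0, 1), s(0, 2), s(1, 2), s(0, 3), s(0, 4), s(0, 5), s(1, 3), s(1, 5), s(2, 3), s(2, 4)]

/-- The determinant of three vectors. -/
def det3 {F : Type} [CommRing F] (x y z : Fin 3 → F) : F :=
  x 0 * (y 1 * z 2 - y 2 * z 1) - x 1 * (y 0 * z 2 - y 2 * z 0) + x 2 * (y 0 * z 1 - y 1 * z 0)

lemma cramer3 {F : Type} [CommRing F] (a b c e : Fin 3 → F) :
    det3 a b c • e = det3 e b c • a + det3 a e c • b + det3 a b e • c := by
  ext i
  fin_cases i <;> simp [det3] <;> ring

lemma mem_of_det3 {F : Type} [Field F] {a b c e : Fin 3 → F} (W : Submodule F (Fin 3 → F))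
    (h : det3 a b c ≠ 0) (ha : a ∈ W) (hb : b ∈ W) (hc : det3 a b e • c ∈ W) : e ∈ W := by
  rw [← W.smul_mem_iff h, cramer3]
  exact add_mem (add_mem (W.smul_mem _ ha) (W.smul_mem _ hb)) hc

/-- The determinant as a linear functional of the last vector. -/
def detMap {F : Type} [Field F] (x y : Fin 3 → F) : (Fin 3 → F) →ₗ[F] (Fin 1 → F) where
  toFun z := fun _ => det3 x y z
  map_add' z w := by ext i; simp [det3]; ring
  map_smul' t z := by ext i; simp [det3]; ring

lemma detMap_eq_zero {F : Type} [Field F] (x y z : Fin 3 → F) :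
    detMap x y z = 0 ↔ det3 x y z = 0 :=
  ⟨fun h => congrFun h 0, fun h => funext fun _ => h⟩

lemma det3_eq_zero_of_mem {F : Type} [Field F] {x y z : Fin 3 → F}
    (h : z ∈ span F ({x, y} : Set (Fin 3 → F))) : det3 x y z = 0 := by
  obtain ⟨s, t, rfl⟩ := mem_span_pair.1 h
  simp [det3]; ring

lemma vt_ne_zero : ∀ e, vt e ≠ 0 := by decide +kernel

lemma vt_parallel : ∀ (e f : Fin 10) (a : ZMod 5), a • vt f = vt e → e = f := by decide +kernel

lemma vt_blocking : ∀ a b c : ZMod 5, ∃ e, vt e 0 * a + vt e 1 * b + vt e 2 * c = 0 := by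
  decide +kernel

lemma vt_tangent : ∀ x, ∃ a b c : ZMod 5, ∀ e, e ≠ x → det3 (vt x) ![a, b, c] (vt e) ≠ 0 := by
  decide +kernel

lemma vt_spans : ∀ a b, a ≠ b → ∃ c, det3 (vt a) (vt b) (vt c) ≠ 0 := by decide +kernel

lemma vt_skew : ∀ a b, a ≠ b → ∃ c d, c ≠ d ∧
    ∀ e, det3 (vt a) (vt b) (vt e) = 0 → det3 (vt c) (vt d) (vt e) ≠ 0 := by decide +kernel

lemma pt_diff : ∀ a b : Fin 6, a ≠ b → ∃ i, pt (a ⊓ b) - pt (a ⊔ b) = vt i := by decide +kernel

lemma edgeOf_vec : ∀ i, pt (edgeOf i).inf - pt (edgeOf i).sup = vt i := by decide +kernel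

lemma edgeOf_not_diag : ∀ i, ¬ (edgeOf i).IsDiag := by decide +kernel

lemma edgeOf_injective : Function.Injective edgeOf := by decide +kernel

/-- The counterexample. -/
noncomputable def prism : Matroid (Fin 10) := vecMatroid (ZMod 5) Set.univ vt

lemma prism_rep : Rep (ZMod 5) prism vt := vecMatroid_rep _ _

lemma prism_E : prism.E = Set.univ := rfl

lemma vt_pair (e f : Fin 10) : LinearIndepOn (ZMod 5) vt {e, f} := by
  rw [linearIndepOn_insert_iff]
  refine ⟨(linearIndepOn_singleton_iff (ZMod 5)).2 (vt_ne_zero f), fun h => ?_⟩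
  rw [Set.image_singleton, mem_span_singleton] at h
  obtain ⟨a, ha⟩ := h
  exact vt_parallel e f a ha

lemma prism_simple : IsSimpleMatroid prism := fun e _ f _ =>
  (prism_rep _ (Set.subset_univ _)).2 (vt_pair e f)

lemma prism_representable : IsRepresentable (ZMod 5) prism := ⟨3, vt, prism_rep⟩

lemma prism_critical : ∃ c, IsCriticalExponent (Fintype.card (ZMod 5)) prism c ∧ 1 < c := by
  have h3 : 3 ∈ {d : ℕ | 0 < d ∧ 0 < (charPoly prism).eval ((Fintype.card (ZMod 5) : ℤ) ^ d)} :=
    ⟨by norm_num, (prism_rep.charPoly_pos_iff 3).2 ⟨LinearMap.id, fun e _ => vt_ne_zero e⟩⟩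
  have hl := isLeast_csInf ⟨3, h3⟩
  refine ⟨_, hl, ?_⟩
  obtain ⟨hpos, hev⟩ := hl.1
  by_contra hle
  have h1 : sInf {d : ℕ | 0 < d ∧ 0 < (charPoly prism).eval ((Fintype.card (ZMod 5) : ℤ) ^ d)}
      = 1 := by omega
  rw [h1] at hev
  obtain ⟨f, hf⟩ := (prism_rep.charPoly_pos_iff 1).1 hev
  obtain ⟨e, he⟩ := vt_blocking (f (Pi.single 0 1) 0) (f (Pi.single 1 1) 0) (f (Pi.single 2 1) 0)
  apply hf e (Set.mem_univ e)
  have hv : vt e = vt e 0 • Pi.single 0 1 + vt e 1 • Pi.single 1 1 + vt e 2 • Pi.single 2 1 := by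
    ext i
    fin_cases i <;> simp
  ext j
  rw [Subsingleton.elim j 0, hv]
  simpa using he

lemma exists_functional (C D : Set (Fin 10)) (hne : (C ∪ D).Nonempty)
    (hloop : ∀ e, e ∉ C → e ∉ D → vt e ∉ span (ZMod 5) (vt '' C)) :
    ∃ g : (Fin 3 → ZMod 5) →ₗ[ZMod 5] (Fin 1 → ZMod 5),
      (∀ e ∈ C, g (vt e) = 0) ∧ ∀ e, e ∉ C → e ∉ D → g (vt e) ≠ 0 := by
  by_cases hC : C.Subsingleton
  · obtain ⟨x, hx, hCx⟩ : ∃ x ∈ C ∪ D, ∀ e ∈ C, e = x := by
      rcases hC.eq_empty_or_singleton with rfl | ⟨x, rfl⟩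
      · obtain ⟨x, hx⟩ := hne
        exact ⟨x, hx, fun e he => absurd he (Set.notMem_empty e)⟩
      · exact ⟨x, Or.inl rfl, fun e he => he⟩
    obtain ⟨a, b, c, h⟩ := vt_tangent x
    refine ⟨detMap (vt x) ![a, b, c], fun e he => ?_, fun e heC heD => ?_⟩
    · rw [hCx e he, detMap_eq_zero]
      exact det3_eq_zero_of_mem (subset_span (by simp))
    · rw [Ne, detMap_eq_zero]
      apply h
      rintro rfl
      exact hx.elim heC heD
  · rw [Set.not_subsingleton_iff] at hC
    obtain ⟨a, ha, b, hb, hab⟩ := hC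
    have ha' : vt a ∈ span (ZMod 5) (vt '' C) := subset_span ⟨a, ha, rfl⟩
    have hb' : vt b ∈ span (ZMod 5) (vt '' C) := subset_span ⟨b, hb, rfl⟩
    by_cases hall : ∀ c ∈ C, det3 (vt a) (vt b) (vt c) = 0
    · refine ⟨detMap (vt a) (vt b), fun e he => (detMap_eq_zero _ _ _).2 (hall e he),
        fun e heC heD => ?_⟩
      rw [Ne, detMap_eq_zero]
      intro h0
      obtain ⟨c, hc⟩ := vt_spans a b hab
      exact hloop e heC heD (mem_of_det3 _ hc ha' hb' (by rw [h0, zero_smul]; exact zero_mem _))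
    · push Not at hall
      obtain ⟨c, hc, hdet⟩ := hall
      refine ⟨0, fun e _ => rfl, fun e heC heD => ?_⟩
      exact absurd (mem_of_det3 _ hdet ha' hb'
        (Submodule.smul_mem _ _ (subset_span ⟨c, hc, rfl⟩))) (hloop e heC heD)

lemma prism_minor (N : Matroid (Fin 10)) (hN : N <m prism) (hl : N.Loopless) :
    ∃ c, IsCriticalExponent (Fintype.card (ZMod 5)) N c ∧ c ≤ 1 := by
  obtain ⟨C, D, hC, -, -, rfl⟩ := hN.isMinor.exists_eq_contract_delete_disjoint
  have hne : (C ∪ D).Nonempty := by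
    obtain ⟨x, -, hx⟩ := Set.exists_of_ssubset hN.ssubset
    by_contra hcon
    apply hx
    rw [delete_ground, contract_ground]
    exact ⟨⟨Set.mem_univ x, fun h => hcon ⟨x, Or.inl h⟩⟩, fun h => hcon ⟨x, Or.inr h⟩⟩
  have hloop : ∀ e, e ∉ C → e ∉ D → vt e ∉ span (ZMod 5) (vt '' C) := by
    intro e heC heD hmem
    apply Matroid.not_isLoop (prism ／ C ＼ D) e
    rw [delete_isLoop_iff, contract_isLoop_iff_mem_closure]
    exact ⟨⟨(prism_rep.mem_closure hC (Set.mem_univ e)).2 hmem, heC⟩, heD⟩
  obtain ⟨g, hg1, hg2⟩ := exists_functional C D hne hloop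
  refine ⟨1, ⟨⟨one_pos, ?_⟩, fun d hd => hd.1⟩, le_rfl⟩
  rw [((prism_rep.contract hC).delete D).charPoly_pos_iff 1]
  refine ⟨(span (ZMod 5) (vt '' C)).liftQ g ?_, fun e he => ?_⟩
  · rw [span_le]
    rintro _ ⟨e, he, rfl⟩
    exact hg1 e he
  · rw [delete_ground, contract_ground] at he
    exact hg2 e he.1.2 he.2

theorem prism_tangential : IsTangentialBlock (ZMod 5) 1 prism :=
  ⟨prism_simple, prism_representable, prism_critical, prism_minor⟩

/-- The linear map sending the standard basis to the vertices of the prism. -/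
noncomputable def ptMap : (Fin 6 → ZMod 5) →ₗ[ZMod 5] (Fin 3 → ZMod 5) :=
  Fintype.linearCombination (ZMod 5) pt

lemma ptMap_edgeVec (e : Sym2 (Fin 6)) :
    ptMap (edgeVec (ZMod 5) e) = pt e.inf - pt e.sup := by
  simp [ptMap, edgeVec]

theorem prism_normal : ∃ K N S : Matroid (Sym2 (Fin 6)),
    IsCycleMatroid (⊤ : SimpleGraph (Fin 6)) K ∧
      IsQuotient N K ∧ IsSimplification S N ∧ IsIsomorphic prism S := by
  let E := (⊤ : SimpleGraph (Fin 6)).edgeSet
  let w : Sym2 (Fin 6) → Fin 3 → ZMod 5 := fun e => ptMap (edgeVec (ZMod 5) e)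
  let N := vecMatroid (ZMod 5) E w
  have hN : Rep (ZMod 5) N w := vecMatroid_rep _ _
  have hw : w ∘ edgeOf = vt := by
    funext i
    simp only [w, Function.comp, ptMap_edgeVec, edgeOf_vec]
  have hsub : Set.range edgeOf ⊆ E := by
    rintro _ ⟨i, rfl⟩
    simpa [E] using edgeOf_not_diag i
  have hiso : ∀ I : Set (Fin 10), prism.Indep I ↔ (N ↾ Set.range edgeOf).Indep (edgeOf '' I) := by
    intro I
    rw [prism_rep I (Set.subset_univ _), restrict_indep_iff,
      and_iff_left (Set.image_subset_range _ _),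
      hN _ ((Set.image_subset_range _ _).trans hsub), ← hw]
    exact ⟨fun h => h.image_of_comp _ _, fun h => h.comp_of_image edgeOf_injective.injOn⟩
  refine ⟨vecMatroid (ZMod 5) E (edgeVec (ZMod 5)), N, N ↾ Set.range edgeOf, isCycleMatroid_vec,
    isQuotient_vec _ _ _, ⟨restrict_isRestriction N _ hsub, ?_, ?_⟩,
    edgeOf, ?_, fun I _ => hiso I⟩
  · rintro _ ⟨i, rfl⟩ _ ⟨j, rfl⟩
    have := (hiso {i, j}).1 (prism_simple i (Set.mem_univ _) j (Set.mem_univ _))
    rwa [Set.image_pair] at this
  · intro e he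
    have heE : e ∈ E := he.mem_ground
    induction e using Sym2.ind with
    | _ a b =>
      have hab : a ≠ b := by simpa [E] using heE
      obtain ⟨i, hi⟩ := pt_diff a b hab
      have hwe : w s(a, b) = w (edgeOf i) := by
        have h1 : w (edgeOf i) = vt i := congrFun hw i
        rw [h1, ← hi]
        simp only [w, ptMap_edgeVec, Sym2.inf_mk, Sym2.sup_mk]
      refine ⟨edgeOf i, ⟨i, rfl⟩, ?_⟩
      ext x
      by_cases hx : x ∈ E
      · rw [hN.mem_closure (Set.singleton_subset_iff.2 heE) hx,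
          hN.mem_closure (Set.singleton_subset_iff.2 (hsub ⟨i, rfl⟩)) hx,
          Set.image_singleton, Set.image_singleton, hwe]
      · exact ⟨fun h => absurd (mem_ground_of_mem_closure h) hx,
          fun h => absurd (mem_ground_of_mem_closure h) hx⟩
  · exact ⟨fun i _ => ⟨i, rfl⟩, edgeOf_injective.injOn, fun _ ⟨i, hi⟩ => ⟨i, Set.mem_univ _, hi⟩⟩

lemma two_le_rk {X : Set (Fin 10)} {a b : Fin 10} (ha : a ∈ X) (hb : b ∈ X) (hab : a ≠ b) :
    2 ≤ rk prism X := by
  rw [prism_rep.rk_eq (Set.subset_univ _), ← Set.ncard_pair hab,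
    ← finrank_span_indep (vt_pair a b)]
  apply Submodule.finrank_mono
  apply span_mono
  apply Set.image_mono
  exact Set.pair_subset ha hb

lemma rk_le_three (X : Set (Fin 10)) : rk prism X ≤ 3 := by
  rw [prism_rep.rk_eq (Set.subset_univ _)]
  refine (Submodule.finrank_le _).trans ?_
  simp

lemma modular_cases {A : Set (Fin 10)} (hA : IsModularFlat prism A) :
    A = Set.univ ∨ A.Subsingleton := by
  by_contra hcon
  push Not at hcon
  obtain ⟨hAE, hA2⟩ := hcon
  obtain ⟨a, ha, b, hb, hab⟩ := hA2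
  have hdet : ∀ e ∈ A, det3 (vt a) (vt b) (vt e) = 0 := by
    intro c hc
    by_contra hne
    apply hAE
    rw [Set.eq_univ_iff_forall]
    intro e
    rw [← hA.1.closure, prism_rep.mem_closure (Set.subset_univ _) (Set.mem_univ e)]
    exact mem_of_det3 _ hne (subset_span ⟨a, ha, rfl⟩) (subset_span ⟨b, hb, rfl⟩)
      (Submodule.smul_mem _ _ (subset_span ⟨c, hc, rfl⟩))
  obtain ⟨c, d, hcd, hskew⟩ := vt_skew a b hab
  have hmod := hA.2 (prism.closure {c, d}) (prism.isFlat_closure _)
  have hempty : A ∩ prism.closure {c, d} = ∅ := by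
    rw [Set.eq_empty_iff_forall_notMem]
    rintro e ⟨heA, heX⟩
    rw [prism_rep.mem_closure (Set.subset_univ _) (Set.mem_univ e), Set.image_pair] at heX
    exact hskew e (hdet e heA) (det3_eq_zero_of_mem heX)
  have hsub : ({c, d} : Set (Fin 10)) ⊆ prism.closure {c, d} :=
    prism.subset_closure _ (Set.subset_univ _)
  have h1 := two_le_rk ha hb hab
  have h2 : 2 ≤ rk prism (prism.closure {c, d}) := two_le_rk (hsub (by simp)) (hsub (by simp)) hcd
  have h3 := rk_le_three (A ∪ prism.closure {c, d})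
  have h4 : rk prism (∅ : Set (Fin 10)) = 0 := by simp [rk]
  rw [hempty, h4] at hmod
  omega

theorem prism_not_supersolvable : ¬ IsSupersolvable prism := by
  rintro ⟨𝒞, hmax, hmod⟩
  obtain ⟨e, he⟩ : ∃ e : Fin 10, ∀ A ∈ 𝒞, A.1.Subsingleton → A.1 ⊆ {e} := by
    by_cases h : ∃ A ∈ 𝒞, A.1.Subsingleton ∧ A.1.Nonempty
    · obtain ⟨A, hA, hA1, e, heA⟩ := h
      refine ⟨e, fun B hB hB1 x hx => ?_⟩
      rcases hmax.isChain.total hA hB with h1 | h1
      · exact hB1 hx (h1 heA)
      · exact hA1 (h1 hx) heA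
    · refine ⟨0, fun B hB hB1 x hx => ?_⟩
      exact absurd ⟨B, hB, hB1, x, hx⟩ h
  obtain ⟨f, hf⟩ := exists_ne e
  have hsub : ({e, f} : Set (Fin 10)) ⊆ prism.closure {e, f} :=
    prism.subset_closure _ (Set.subset_univ _)
  let L : {A : Set (Fin 10) // prism.IsFlat A} := ⟨prism.closure {e, f}, prism.isFlat_closure _⟩
  have hchain : IsChain (· ≤ ·) (insert L 𝒞) := by
    apply hmax.isChain.insert
    intro A hA _
    rcases modular_cases (hmod A hA) with h | h
    · left
      change L.1 ⊆ A.1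
      rw [h]
      exact Set.subset_univ _
    · right
      change A.1 ⊆ L.1
      exact (he A hA h).trans (Set.singleton_subset_iff.2 (hsub (by simp)))
  have hL : L ∈ 𝒞 := by
    rw [hmax.2 hchain (Set.subset_insert _ _)]
    exact Set.mem_insert _ _
  rcases modular_cases (hmod L hL) with h | h
  · obtain ⟨c, hc⟩ := vt_spans e f hf.symm
    have hcL : c ∈ prism.closure {e, f} := by
      change c ∈ L.1
      rw [h]
      exact Set.mem_univ c
    rw [prism_rep.mem_closure (Set.subset_univ _) (Set.mem_univ c), Set.image_pair] at hcL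
    exact hc (det3_eq_zero_of_mem hcL)
  · exact hf (h (hsub (by simp)) (hsub (by simp)))

theorem prism_isNormal : IsNormalTangentialBlock (ZMod 5) 1 prism := by
  refine ⟨prism_tangential, ?_⟩
  have h : ∀ n : ℕ, n = 6 → ∃ K N S : Matroid (Sym2 (Fin n)),
      IsCycleMatroid (⊤ : SimpleGraph (Fin n)) K ∧
        IsQuotient N K ∧ IsSimplification S N ∧ IsIsomorphic prism S := by
    rintro n rfl
    exact prism_normal
  exact h _ (by rw [ZMod.card]; norm_num)

end Pool.Agent.MP_dabcc5_co

end
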